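import Mathlib

set_option autoImplicit false

/-!
Six pairwise disjoint two-sided segment mirrors and a point light source which leave no dark
region of positive area.

Let `ω = exp(iπ/3)`. The mirrors are the segments from `ω^i` to `5 ω^(i+1)`, `i = 0, …, 5`, and
the light source is the origin. All points are written in the lattice coordinates
`(a, b) ↦ a + b ω`, in which the rotation by 60 degrees is `(a, b) ↦ (-b, a + b)`. The mirror
image of the source in the line `5 a + b = 5` of the first mirror is `(15/7, -5/7)`; it lies on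
the line `4 a + 5 b = 5` of the second mirror, so the light reflected by the first mirror passes
along both sides of the second mirror and meets no mirror again. It lights the region
`5 a + b < 5`, `5 a + 8 b > 5`, `8 a + 3 b < 15`, and the six rotated copies of this region,
together with the directly lit triangles, cover the plane up to finitely many lines.
-/

namespace Pool.Agent.Results.MP_74d6fb_co.NoShadow

open MeasureTheory

/-- The Euclidean plane. -/
abbrev Plane : Type := EuclideanSpace ℝ (Fin 2)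

/-- A configuration of `n` mirrors: pairwise disjoint closed segments of positive length. -/
structure Config (n : ℕ) where
  /-- first endpoints -/
  a : Fin n → Plane
  /-- second endpoints -/
  b : Fin n → Plane
  /-- positive length -/
  ne : ∀ i, a i ≠ b i
  /-- pairwise disjoint -/
  disj : ∀ i j, i ≠ j → Disjoint (segment ℝ (a i) (b i)) (segment ℝ (a j) (b j))

/-- The `i`-th mirror, a closed segment. -/
def Config.mirror {n : ℕ} (M : Config n) (i : Fin n) : Set Plane := segment ℝ (M.a i) (M.b i)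

/-- The direction `d` after the reflection in a line with direction `u`: the component of `d`
along `u` is kept, the component orthogonal to `u` changes its sign. -/
noncomputable def reflectDir (u d : Plane) : Plane :=
  (2 * (inner ℝ u d / inner ℝ u u)) • u - d

/-- The open segment from `q` to `q + t d` meets no mirror. -/
def Free {n : ℕ} (M : Config n) (q d : Plane) (t : ℝ) : Prop :=
  ∀ s : ℝ, 0 < s → s < t → ∀ j, q + s • d ∉ M.mirror j

/-- `Beam M p q d`: some ray emitted at `p` leaves the point `q` in the direction `d`. Either it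
is emitted there, or it has come to `q`, an inner point of a mirror, on a free segment, and it is
reflected there. (A ray which meets an endpoint of a mirror is stopped.) -/
inductive Beam {n : ℕ} (M : Config n) (p : Plane) : Plane → Plane → Prop
  | start (d : Plane) (hd : d ≠ 0) : Beam M p p d
  | reflect (q d : Plane) (t : ℝ) (i : Fin n) (h : Beam M p q d) (ht : 0 < t)
      (hfree : Free M q d t) (hit : q + t • d ∈ openSegment ℝ (M.a i) (M.b i)) :
      Beam M p (q + t • d) (reflectDir (M.b i - M.a i) d)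

/-- The point `x` is illuminated from `p`: it lies on the path of a ray emitted at `p`, after
finitely many reflections (possibly none). -/
def Illuminated {n : ℕ} (M : Config n) (p x : Plane) : Prop :=
  ∃ (q d : Plane) (t : ℝ), Beam M p q d ∧ 0 < t ∧ Free M q d t ∧ x = q + t • d

/-! ### lattice coordinates -/

/-- The point with lattice coordinates `(a, b)`. -/
noncomputable def pt (a b : ℝ) : Plane := !₂[a + b / 2, Real.sqrt 3 / 2 * b]

theorem pt_zero (a b : ℝ) : (pt a b) 0 = a + b / 2 := by simp [pt]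

theorem pt_one (a b : ℝ) : (pt a b) 1 = Real.sqrt 3 / 2 * b := by simp [pt]

theorem s3 : (0 : ℝ) < Real.sqrt 3 := Real.sqrt_pos.mpr (by norm_num)

theorem s3s : Real.sqrt 3 * Real.sqrt 3 = 3 := Real.mul_self_sqrt (by norm_num)

theorem pt_add (a b c d : ℝ) : pt a b + pt c d = pt (a + c) (b + d) := by
  ext i
  fin_cases i
  · simp [pt]; ring
  · simp [pt]; ring

theorem pt_sub (a b c d : ℝ) : pt a b - pt c d = pt (a - c) (b - d) := by
  ext i
  fin_cases i
  · simp [pt]; ring
  · simp [pt]; ring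

theorem pt_smul (r a b : ℝ) : r • pt a b = pt (r * a) (r * b) := by
  ext i
  fin_cases i
  · simp [pt]; ring
  · simp [pt]; ring

theorem pt_inj {a b c d : ℝ} (h : pt a b = pt c d) : a = c ∧ b = d := by
  have h0 : (pt a b) 0 = (pt c d) 0 := by rw [h]
  have h1 : (pt a b) 1 = (pt c d) 1 := by rw [h]
  rw [pt_zero, pt_zero] at h0
  rw [pt_one, pt_one] at h1
  have h2 : b = d := by
    have h3 : Real.sqrt 3 / 2 ≠ 0 := by
      have := s3
      positivity
    exact mul_left_cancel₀ h3 h1
  subst h2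
  exact ⟨by linarith, rfl⟩

theorem pt_surj (x : Plane) : ∃ a b : ℝ, x = pt a b := by
  refine ⟨x 0 - x 1 / Real.sqrt 3, 2 * x 1 / Real.sqrt 3, ?_⟩
  have h3 : Real.sqrt 3 ≠ 0 := s3.ne'
  ext i
  fin_cases i
  · simp [pt]; ring
  · simp [pt]

theorem pt_origin : (0 : Plane) = pt 0 0 := by
  ext i
  fin_cases i
  · simp [pt]
  · simp [pt]

theorem pt_inner (a b c d : ℝ) :
    inner ℝ (pt a b) (pt c d) = a * c + (a * d + b * c) / 2 + b * d := by
  have h : inner ℝ (pt a b) (pt c d)
      = (a + b / 2) * (c + d / 2) + (Real.sqrt 3 / 2 * b) * (Real.sqrt 3 / 2 * d) := by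
    simp [pt, PiLp.inner_apply, Fin.sum_univ_two]
    try ring
  rw [h]
  have := s3s
  linear_combination (b * d / 4) * this

/-! ### the configuration -/

/-- lattice coordinates of the inner endpoints -/
def ca : Fin 6 → ℝ × ℝ := ![(1, 0), (0, 1), (-1, 1), (-1, 0), (0, -1), (1, -1)]

/-- lattice coordinates of the outer endpoints -/
def cb : Fin 6 → ℝ × ℝ := ![(0, 5), (-5, 5), (-5, 0), (0, -5), (5, -5), (5, 0)]

/-- inner endpoints -/
noncomputable def pa (i : Fin 6) : Plane := pt (ca i).1 (ca i).2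

/-- outer endpoints -/
noncomputable def pb (i : Fin 6) : Plane := pt (cb i).1 (cb i).2

theorem mem_seg {i : Fin 6} {x y : ℝ} (h : pt x y ∈ segment ℝ (pa i) (pb i)) :
    ∃ t : ℝ, 0 ≤ t ∧ t ≤ 1 ∧ x = (1 - t) * (ca i).1 + t * (cb i).1 ∧
      y = (1 - t) * (ca i).2 + t * (cb i).2 := by
  obtain ⟨u, t, hu, ht, hut, h1⟩ := h
  unfold pa pb at h1
  rw [pt_smul, pt_smul, pt_add] at h1
  obtain ⟨h2, h3⟩ := pt_inj h1
  have hu' : u = 1 - t := by linarith
  subst hu'
  exact ⟨t, ht, by linarith, h2.symm, h3.symm⟩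

theorem disj_aux (i j : Fin 6) (hij : i < j) :
    Disjoint (segment ℝ (pa i) (pb i)) (segment ℝ (pa j) (pb j)) := by
  rw [Set.disjoint_left]
  intro z h1 h2
  obtain ⟨x, y, rfl⟩ := pt_surj z
  obtain ⟨t, ht0, ht1, hx, hy⟩ := mem_seg h1
  obtain ⟨s, hs0, hs1, hx', hy'⟩ := mem_seg h2
  rw [hx] at hx'
  rw [hy] at hy'
  fin_cases i <;> fin_cases j <;> first
    | exact absurd hij (by decide)
    | (simp [ca, cb] at hx' hy'; linarith)

theorem ne_aux (i : Fin 6) : pa i ≠ pb i := by
  intro h
  obtain ⟨h1, h2⟩ := pt_inj h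
  fin_cases i <;> simp [ca, cb] at h1 h2

/-- The six mirrors. -/
noncomputable def M : Config 6 where
  a := pa
  b := pb
  ne := ne_aux
  disj := by
    intro i j hij
    rcases lt_or_gt_of_ne hij with h | h
    · exact disj_aux i j h
    · exact (disj_aux j i h).symm

theorem M_mirror (i : Fin 6) : M.mirror i = segment ℝ (pa i) (pb i) := rfl

/-! ### the rotation by 60 degrees -/

/-- rotation by 60 degrees -/
noncomputable def T (x : Plane) : Plane :=
  !₂[x 0 / 2 - Real.sqrt 3 / 2 * x 1, Real.sqrt 3 / 2 * x 0 + x 1 / 2]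

theorem T_pt (a b : ℝ) : T (pt a b) = pt (-b) (a + b) := by
  have h := s3s
  ext i
  fin_cases i
  · simp [T, pt]
    linear_combination (-(b / 4)) * h
  · simp [T, pt]
    ring

theorem T_add (x y : Plane) : T (x + y) = T x + T y := by
  obtain ⟨a, b, rfl⟩ := pt_surj x
  obtain ⟨c, d, rfl⟩ := pt_surj y
  rw [pt_add, T_pt, T_pt, T_pt, pt_add]
  congr 1 <;> ring

theorem T_smul (r : ℝ) (x : Plane) : T (r • x) = r • T x := by
  obtain ⟨a, b, rfl⟩ := pt_surj x
  rw [pt_smul, T_pt, T_pt, pt_smul]
  congr 1 <;> ring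

theorem T_sub (x y : Plane) : T (x - y) = T x - T y := by
  obtain ⟨a, b, rfl⟩ := pt_surj x
  obtain ⟨c, d, rfl⟩ := pt_surj y
  rw [pt_sub, T_pt, T_pt, T_pt, pt_sub]
  congr 1 <;> ring

theorem T_zero : T 0 = 0 := by
  rw [pt_origin, T_pt]
  congr 1 <;> ring

theorem T_inj {x y : Plane} (h : T x = T y) : x = y := by
  obtain ⟨a, b, rfl⟩ := pt_surj x
  obtain ⟨c, d, rfl⟩ := pt_surj y
  rw [T_pt, T_pt] at h
  obtain ⟨h1, h2⟩ := pt_inj h
  have e1 : b = d := by linarith
  have e2 : a = c := by linarith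
  rw [e1, e2]

theorem T_inner (x y : Plane) : inner ℝ (T x) (T y) = inner ℝ x y := by
  obtain ⟨a, b, rfl⟩ := pt_surj x
  obtain ⟨c, d, rfl⟩ := pt_surj y
  rw [T_pt, T_pt, pt_inner, pt_inner]
  ring

theorem T_refl (u d : Plane) : T (reflectDir u d) = reflectDir (T u) (T d) := by
  unfold reflectDir
  rw [T_sub, T_smul, T_inner, T_inner]

theorem T_pa (i : Fin 6) : T (pa i) = pa (i + 1) := by
  unfold pa
  rw [T_pt]
  fin_cases i <;> simp [ca]

theorem T_pb (i : Fin 6) : T (pb i) = pb (i + 1) := by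
  unfold pb
  rw [T_pt]
  fin_cases i <;> simp [cb]

theorem T_mirror {z : Plane} {i : Fin 6} (h : T z ∈ M.mirror (i + 1)) : z ∈ M.mirror i := by
  obtain ⟨u, v, hu, hv, huv, h1⟩ := h
  refine ⟨u, v, hu, hv, huv, ?_⟩
  apply T_inj
  rw [T_add, T_smul, T_smul, ← h1]
  congr 2
  · exact T_pa i
  · exact T_pb i

theorem free_T {q d : Plane} {t : ℝ} (h : Free M q d t) : Free M (T q) (T d) t := by
  intro s hs hst j hj
  have e : T q + s • T d = T (q + s • d) := by rw [T_add, T_smul]
  rw [e] at hj
  have e2 : j = (j - 1) + 1 := by rw [sub_add_cancel]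
  rw [e2] at hj
  exact h s hs hst (j - 1) (T_mirror hj)

theorem beam_T {q d : Plane} (h : Beam M 0 q d) : Beam M 0 (T q) (T d) := by
  induction h with
  | start d hd =>
    rw [T_zero]
    exact Beam.start (T d) (fun h0 => hd (T_inj (by rw [h0, T_zero])))
  | reflect q d t i h ht hfree hit ih =>
    have e1 : T (q + t • d) = T q + t • T d := by rw [T_add, T_smul]
    have e2 : T (reflectDir (M.b i - M.a i) d)
        = reflectDir (M.b (i + 1) - M.a (i + 1)) (T d) := by
      rw [T_refl, T_sub]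
      congr 2
      · exact T_pb i
      · exact T_pa i
    rw [e1, e2]
    refine Beam.reflect (T q) (T d) t (i + 1) ih ht (free_T hfree) ?_
    rw [← e1]
    obtain ⟨u, v, hu, hv, huv, h1⟩ := hit
    refine ⟨u, v, hu, hv, huv, ?_⟩
    rw [← h1, T_add, T_smul, T_smul]
    congr 2
    · exact (T_pa i).symm
    · exact (T_pb i).symm

theorem lit_T {x : Plane} (h : Illuminated M 0 x) : Illuminated M 0 (T x) := by
  obtain ⟨q, d, t, hb, ht, hf, hx⟩ := h
  refine ⟨T q, T d, t, beam_T hb, ht, free_T hf, ?_⟩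
  rw [hx, T_add, T_smul]

/-! ### the light of the first mirror -/

theorem off_direct {x y : ℝ} (hx : 0 < x) (hy : 0 < y) (h : 5 * x + y < 5) (j : Fin 6) :
    pt x y ∉ M.mirror j := by
  intro hm
  obtain ⟨t, ht0, ht1, h1, h2⟩ := mem_seg hm
  fin_cases j <;> simp [ca, cb] at h1 h2 <;> linarith

theorem off_refl {x y : ℝ} (h0 : 5 * x + y < 5) (h1 : 5 < 5 * x + 8 * y) (_h2 : x - 4 * y < 5)
    (h3 : 4 * x + 5 * y ≠ 5) (j : Fin 6) : pt x y ∉ M.mirror j := by
  intro hm
  obtain ⟨t, ht0, ht1, e1, e2⟩ := mem_seg hm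
  fin_cases j
  · simp [ca, cb] at e1 e2; linarith
  · simp [ca, cb] at e1 e2
    apply h3
    rw [e1, e2]
    ring
  · simp [ca, cb] at e1 e2; linarith
  · simp [ca, cb] at e1 e2; linarith
  · simp [ca, cb] at e1 e2; linarith
  · simp [ca, cb] at e1 e2; linarith

theorem lit_direct {a b : ℝ} (ha : 0 < a) (hb : 0 < b) (h : 5 * a + b < 5) :
    Illuminated M 0 (pt a b) := by
  refine ⟨0, pt a b, 1, Beam.start _ ?_, one_pos, ?_, by simp⟩
  · intro h0
    rw [pt_origin] at h0
    exact ha.ne' (pt_inj h0).1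
  · intro s hs hs1 j hj
    rw [zero_add, pt_smul] at hj
    refine off_direct (mul_pos hs ha) (mul_pos hs hb) ?_ j hj
    nlinarith

theorem refl0 {q₁ q₂ : ℝ} (h : 5 * q₁ + q₂ = 5) :
    reflectDir (M.b 0 - M.a 0) (pt q₁ q₂) = pt (q₁ - 15 / 7) (q₂ + 5 / 7) := by
  have e : M.b 0 - M.a 0 = pt (-1) 5 := by
    have h1 : M.b 0 = pt 0 5 := by
      show pb 0 = _
      simp [pb, cb]
    have h2 : M.a 0 = pt 1 0 := by
      show pa 0 = _
      simp [pa, ca]
    rw [h1, h2, pt_sub]
    congr 1 <;> norm_num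
  have hq : q₂ = 5 - 5 * q₁ := by linarith
  rw [e]
  unfold reflectDir
  rw [pt_inner, pt_inner, pt_smul, pt_sub, hq]
  congr 1 <;> ring

theorem lit_K {a b : ℝ} (h0 : 5 * a + b < 5) (h1 : 5 < 5 * a + 8 * b) (h2 : 8 * a + 3 * b < 15)
    (h3 : 4 * a + 5 * b ≠ 5) : Illuminated M 0 (pt a b) := by
  have hD : 0 < 10 - 5 * a - b := by linarith
  obtain ⟨l, hl⟩ : ∃ l : ℝ, l = 5 / (10 - 5 * a - b) := ⟨_, rfl⟩
  have hl0 : 0 < l := by rw [hl]; positivity
  have hlD : l * (10 - 5 * a - b) = 5 := by
    rw [hl]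
    field_simp
  have hl1 : l < 1 := by
    rw [hl, div_lt_one hD]
    linarith
  obtain ⟨q₁, hq1⟩ : ∃ q : ℝ, q = l * (15 - 8 * a - 3 * b) / 7 := ⟨_, rfl⟩
  obtain ⟨q₂, hq2⟩ : ∃ q : ℝ, q = l * (5 * a + 8 * b - 5) / 7 := ⟨_, rfl⟩
  have hp1 : 0 < q₁ := by
    rw [hq1]
    have : 0 < 15 - 8 * a - 3 * b := by linarith
    positivity
  have hp2 : 0 < q₂ := by
    rw [hq2]
    have : 0 < 5 * a + 8 * b - 5 := by linarith
    positivity
  have hs : 5 * q₁ + q₂ = 5 := by
    rw [hq1, hq2]
    linear_combination hlD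
  have g1 : q₁ - 15 / 7 = l * (a - 15 / 7) := by
    rw [hq1]
    linear_combination (3 / 7 : ℝ) * hlD
  have g2 : q₂ + 5 / 7 = l * (b + 5 / 7) := by
    rw [hq2]
    linear_combination (-(1 / 7 : ℝ)) * hlD
  have g3 : 4 * q₁ + 5 * q₂ - 5 = l * (4 * a + 5 * b - 5) := by
    rw [hq1, hq2]
    linear_combination hlD
  have e0 : (0 : Plane) + (1 : ℝ) • pt q₁ q₂ = pt q₁ q₂ := by simp
  have ed := refl0 hs
  have hbeam : Beam M 0 (pt q₁ q₂) (pt (q₁ - 15 / 7) (q₂ + 5 / 7)) := by
    have hB := Beam.reflect (M := M) (p := 0) 0 (pt q₁ q₂) 1 0 (Beam.start _ ?_) one_pos ?_ ?_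
    · rw [e0, ed] at hB
      exact hB
    · intro h0
      rw [pt_origin] at h0
      exact hp1.ne' (pt_inj h0).1
    · intro s hs0 hs1 j hj
      rw [zero_add, pt_smul] at hj
      refine off_direct (mul_pos hs0 hp1) (mul_pos hs0 hp2) ?_ j hj
      nlinarith
    · rw [e0]
      refine ⟨q₁, q₂ / 5, hp1, by positivity, by linarith, ?_⟩
      show q₁ • pa 0 + (q₂ / 5) • pb 0 = _
      unfold pa pb
      rw [pt_smul, pt_smul, pt_add]
      congr 1 <;> simp [ca, cb]
  refine ⟨pt q₁ q₂, pt (q₁ - 15 / 7) (q₂ + 5 / 7), (1 - l) / l, hbeam,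
    div_pos (by linarith) hl0, ?_, ?_⟩
  · intro s hs0 _ j hj
    rw [pt_smul, pt_add] at hj
    have hsp : 0 < s * q₂ := mul_pos hs0 hp2
    refine off_refl ?_ ?_ ?_ ?_ j hj
    · nlinarith
    · nlinarith
    · nlinarith
    · intro h5
      have h6 : (1 + s) * (l * (4 * a + 5 * b - 5)) = 0 := by
        rw [← g3]
        linear_combination h5
      rcases mul_eq_zero.mp h6 with h7 | h7
      · linarith
      · rcases mul_eq_zero.mp h7 with h8 | h8
        · exact hl0.ne' h8
        · exact h3 (by linarith)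
  · rw [g1, g2, pt_smul, pt_add]
    have hl' : l ≠ 0 := hl0.ne'
    congr 1
    · have : q₁ = 15 / 7 + l * (a - 15 / 7) := by linarith
      rw [this]
      field_simp
      ring
    · have : q₂ = -(5 / 7) + l * (b + 5 / 7) := by linarith
      rw [this]
      field_simp
      ring

/-! ### covering the plane -/

theorem lit_sector {a b : ℝ} (ha : 0 < a) (hb : 0 < b) (h1 : 5 * a + b ≠ 5)
    (h2 : a - 4 * b ≠ 5) : Illuminated M 0 (pt a b) := by
  rcases lt_or_gt_of_ne h1 with h | h
  · exact lit_direct ha hb h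
  · rcases lt_or_ge 5 (3 * a - 5 * b) with h3 | h3
    · have h4 : Illuminated M 0 (pt (-a - b) a) :=
        lit_K (by linarith) (by linarith) (by linarith) (fun h5 => h2 (by linarith))
      have e : T (T (T (T (pt (-a - b) a)))) = pt a b := by
        simp only [T_pt]
        congr 1 <;> ring
      have h6 := lit_T (lit_T (lit_T (lit_T h4)))
      rw [e] at h6
      exact h6
    · have h4 : Illuminated M 0 (pt (-b) (a + b)) :=
        lit_K (by linarith) (by linarith) (by linarith) (fun h5 => h1 (by linarith))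
      have e : T (T (T (T (T (pt (-b) (a + b)))))) = pt a b := by
        simp only [T_pt]
        congr 1 <;> ring
      have h6 := lit_T (lit_T (lit_T (lit_T (lit_T h4))))
      rw [e] at h6
      exact h6

theorem lit_generic {a b : ℝ} (ha : a ≠ 0) (hb : b ≠ 0) (hab : a + b ≠ 0)
    (h1 : 5 * a + b ≠ 5) (h1' : 5 * a + b ≠ -5) (h2 : a - 4 * b ≠ 5) (h2' : a - 4 * b ≠ -5)
    (h3 : 4 * a + 5 * b ≠ 5) (h3' : 4 * a + 5 * b ≠ -5) : Illuminated M 0 (pt a b) := by
  rcases lt_or_gt_of_ne ha with hA | hA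
  · rcases lt_or_gt_of_ne hb with hB | hB
    · have h : Illuminated M 0 (pt (-a) (-b)) :=
        lit_sector (by linarith) (by linarith) (fun h5 => h1' (by linarith))
          (fun h5 => h2' (by linarith))
      have e : T (T (T (pt (-a) (-b)))) = pt a b := by
        simp only [T_pt]
        congr 1 <;> ring
      rw [← e]
      exact lit_T (lit_T (lit_T h))
    · rcases lt_or_gt_of_ne hab with hC | hC
      · have h : Illuminated M 0 (pt b (-a - b)) :=
          lit_sector hB (by linarith) (fun h5 => h2' (by linarith))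
            (fun h5 => h3 (by linarith))
        have e : T (T (pt b (-a - b))) = pt a b := by
          simp only [T_pt]
          congr 1 <;> ring
        rw [← e]
        exact lit_T (lit_T h)
      · have h : Illuminated M 0 (pt (a + b) (-a)) :=
          lit_sector hC (by linarith) (fun h5 => h3 (by linarith))
            (fun h5 => h1 (by linarith))
        have e : T (pt (a + b) (-a)) = pt a b := by
          simp only [T_pt]
          congr 1 <;> ring
        rw [← e]
        exact lit_T h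
  · rcases lt_or_gt_of_ne hb with hB | hB
    · rcases lt_or_gt_of_ne hab with hC | hC
      · have h : Illuminated M 0 (pt (-a - b) a) :=
          lit_sector (by linarith) hA (fun h5 => h3' (by linarith))
            (fun h5 => h1' (by linarith))
        have e : T (T (T (T (pt (-a - b) a)))) = pt a b := by
          simp only [T_pt]
          congr 1 <;> ring
        rw [← e]
        exact lit_T (lit_T (lit_T (lit_T h)))
      · have h : Illuminated M 0 (pt (-b) (a + b)) :=
          lit_sector (by linarith) hC (fun h5 => h2 (by linarith))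
            (fun h5 => h3' (by linarith))
        have e : T (T (T (T (T (pt (-b) (a + b)))))) = pt a b := by
          simp only [T_pt]
          congr 1 <;> ring
        rw [← e]
        exact lit_T (lit_T (lit_T (lit_T (lit_T h))))
    · exact lit_sector hA hB h1 h2

/-- A line in lattice coordinates. -/
def Ln (α β γ : ℝ) : Set Plane := {x | ∃ a b : ℝ, x = pt a b ∧ α * a + β * b = γ}

/-- The linear functional with lattice coefficients `(α, β)`. -/
noncomputable def fn (α β : ℝ) : Plane →ₗ[ℝ] ℝ :=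
  (α • (EuclideanSpace.proj (0 : Fin 2) : Plane →L[ℝ] ℝ)
    + ((2 * β - α) / Real.sqrt 3) • (EuclideanSpace.proj (1 : Fin 2) : Plane →L[ℝ] ℝ)).toLinearMap

theorem fn_pt (α β a b : ℝ) : fn α β (pt a b) = α * a + β * b := by
  have h3 : Real.sqrt 3 ≠ 0 := s3.ne'
  simp [fn, pt]
  field_simp
  ring

theorem Ln_null {α β γ : ℝ} (h : α ≠ 0 ∨ β ≠ 0) : volume (Ln α β γ) = 0 := by
  by_cases hne : (Ln α β γ).Nonempty
  · obtain ⟨x₀, a₀, b₀, hx₀, h₀⟩ := hne
    have hS : Ln α β γ ⊆ (AffineSubspace.mk' x₀ (LinearMap.ker (fn α β)) : Set Plane) := by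
      rintro x ⟨a, b, hx, h1⟩
      rw [SetLike.mem_coe, AffineSubspace.mem_mk', LinearMap.mem_ker, vsub_eq_sub, hx, hx₀,
        pt_sub, fn_pt]
      linarith
    refine measure_mono_null hS (Measure.addHaar_affineSubspace volume _ ?_)
    intro htop
    have h1 : ∀ x : Plane, fn α β x = fn α β x₀ := by
      intro x
      have hx : x ∈ (AffineSubspace.mk' x₀ (LinearMap.ker (fn α β))) := by
        rw [htop]
        exact AffineSubspace.mem_top ℝ Plane x
      rw [AffineSubspace.mem_mk', LinearMap.mem_ker, vsub_eq_sub, map_sub, sub_eq_zero] at hx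
      exact hx
    have e1 := h1 (pt 1 0)
    have e2 := h1 (pt 0 1)
    have e3 := h1 (pt 0 0)
    rw [fn_pt] at e1 e2 e3
    rcases h with h | h
    · apply h
      linarith
    · apply h
      linarith
  · rw [Set.not_nonempty_iff_eq_empty.mp hne]
    exact measure_empty

/-- The dark points lie on nine lines. -/
theorem dark_subset : {x : Plane | ¬ Illuminated M 0 x} ⊆
    Ln 1 0 0 ∪ (Ln 0 1 0 ∪ (Ln 1 1 0 ∪ (Ln 5 1 5 ∪ (Ln 5 1 (-5) ∪ (Ln 1 (-4) 5 ∪
      (Ln 1 (-4) (-5) ∪ (Ln 4 5 5 ∪ Ln 4 5 (-5)))))))) := by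
  intro x hx
  obtain ⟨a, b, rfl⟩ := pt_surj x
  by_contra hcon
  simp only [Set.mem_union, not_or] at hcon
  obtain ⟨k1, k2, k3, k4, k5, k6, k7, k8, k9⟩ := hcon
  apply hx
  refine lit_generic ?_ ?_ ?_ ?_ ?_ ?_ ?_ ?_ ?_
  · exact fun h => k1 ⟨a, b, rfl, by rw [h]; ring⟩
  · exact fun h => k2 ⟨a, b, rfl, by rw [h]; ring⟩
  · exact fun h => k3 ⟨a, b, rfl, by linarith⟩
  · exact fun h => k4 ⟨a, b, rfl, by linarith⟩
  · exact fun h => k5 ⟨a, b, rfl, by linarith⟩
  · exact fun h => k6 ⟨a, b, rfl, by linarith⟩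
  · exact fun h => k7 ⟨a, b, rfl, by linarith⟩
  · exact fun h => k8 ⟨a, b, rfl, by linarith⟩
  · exact fun h => k9 ⟨a, b, rfl, by linarith⟩

theorem dark_null : volume {x : Plane | ¬ Illuminated M 0 x} = 0 := by
  refine measure_mono_null dark_subset ?_
  rw [measure_union_null_iff, measure_union_null_iff, measure_union_null_iff,
    measure_union_null_iff, measure_union_null_iff, measure_union_null_iff,
    measure_union_null_iff, measure_union_null_iff]
  refine ⟨Ln_null (Or.inl (by norm_num)), Ln_null (Or.inr (by norm_num)),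
    Ln_null (Or.inl (by norm_num)), Ln_null (Or.inl (by norm_num)),
    Ln_null (Or.inl (by norm_num)), Ln_null (Or.inl (by norm_num)),
    Ln_null (Or.inl (by norm_num)), Ln_null (Or.inl (by norm_num)),
    Ln_null (Or.inl (by norm_num))⟩

theorem origin_off (i : Fin 6) : (0 : Plane) ∉ line[ℝ, M.a i, M.b i] := by
  intro h
  rw [mem_affineSpan_pair_iff_exists_lineMap_eq] at h
  obtain ⟨r, hr⟩ := h
  rw [AffineMap.lineMap_apply_module] at hr
  change (1 - r) • pa i + r • pb i = 0 at hr
  unfold pa pb at hr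
  rw [pt_smul, pt_smul, pt_add, pt_origin] at hr
  obtain ⟨h1, h2⟩ := pt_inj hr
  fin_cases i <;> simp [ca, cb] at h1 h2 <;> linarith

/-- There are six pairwise disjoint two-sided segment mirrors and a point `p` on none of the
lines through the mirrors such that the set of the points which are not illuminated from `p` has
Lebesgue measure zero. -/
theorem result : ∃ (M : Config 6) (p : Plane), (∀ i, p ∉ line[ℝ, M.a i, M.b i]) ∧
    volume {x : Plane | ¬ Illuminated M p x} = 0 :=
  ⟨M, 0, origin_off, dark_null⟩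

end Pool.Agent.Results.MP_74d6fb_co.NoShadow
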